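import Pool.Agent.R421.Z8.Par
import Pool.Agent.R421.HF.Low
import Pool.Agent.R421.HF.Fin

/-!
# Project Z8: the curves with a point of order eight, by height
-/

set_option autoImplicit false
set_option linter.all false

namespace Pool.Agent.R421.Z8

open Finset Filter WeierstrassCurve Pool.Agent.W262.RK Pool.Agent.W307.RT Pool.Agent.R421.HF

lemma cop_eq {a b a' b' : ℕ} (h : a.Coprime b) (h' : a'.Coprime b') (hb : 1 ≤ b)
    (e : b * a' = b' * a) : a = a' ∧ b = b' := by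
  have d1 : a ∣ a' := by
    have : a ∣ b * a' := ⟨b', by rw [e]; ring⟩
    exact h.dvd_of_dvd_mul_left this
  have d2 : a' ∣ a := by
    have : a' ∣ b' * a := ⟨b, by rw [← e]; ring⟩
    exact h'.dvd_of_dvd_mul_left this
  have h1 : a = a' := Nat.dvd_antisymm d1 d2
  refine ⟨h1, ?_⟩
  rcases Nat.eq_zero_or_pos a with h0 | h0
  · have h2 : b = 1 := by rw [h0, Nat.coprime_zero_left] at h; exact h
    have h3 : b' = 1 := by rw [← h1, h0, Nat.coprime_zero_left] at h'; exact h'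
    rw [h2, h3]
  · rw [← h1] at e
    exact Nat.eq_of_mul_eq_mul_right h0 e

theorem low8 : ∃ (c : ℝ) (C T0 : ℕ), 0 < c ∧ ∀ K H : ℕ, T0 ≤ K → C * K ^ 24 ≤ H →
    c * K ^ 2 ≤ ((CvN 8 H).card : ℝ) := by
  refine low_of (N := 8) (k := 24) (fun _ b => 6 * (b : ℤ) ^ 2)
    (fun a b => (3 * ((a : ℤ) * (a + 2 * b))) ^ 2)
    (fun a b => 12 * (b : ℤ) ^ 4 - 6 * ((a : ℤ) * (a + 2 * b)) ^ 2) (fun K => 81 * (K : ℤ) ^ 4)
    (256 * 81 ^ 6) ?_ ?_ ?_ ?_
  · intro a b hb hab hc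
    have hb' : (1 : ℤ) ≤ b := by exact_mod_cast hb
    have hab' : (b : ℤ) < a := by exact_mod_cast hab
    have ha' : (0 : ℤ) < a := by linarith
    have hu : 0 < (a : ℤ) * (a + 2 * b) := by positivity
    refine ⟨by positivity, by positivity, ?_, by ring, ?_⟩
    · have h1 : (b : ℤ) ^ 2 < a * (a + 2 * b) := by nlinarith
      have h2 : ((b : ℤ) ^ 2) ^ 2 < ((a : ℤ) * (a + 2 * b)) ^ 2 :=
        pow_lt_pow_left₀ h1 (sq_nonneg _) two_ne_zero
      nlinarith
    · intro A B hR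
      refine hR.pt8 (u := 3 * ((a : ℤ) * (a + 2 * b))) (v := 6 * (b : ℤ) * (a + b)) rfl (by ring) ?_
      have h1 : 0 < 6 * (b : ℤ) * (a + b) := by positivity
      have h2 : 0 < 6 * (b : ℤ) ^ 2 + 3 * ((a : ℤ) * (a + 2 * b)) + 6 * (b : ℤ) * (a + b) := by
        positivity
      have h3 : 0 < 3 * ((a : ℤ) * (a + 2 * b)) := by positivity
      exact (mul_pos (mul_pos h3 h1) h2).ne'
  · intro a b a' b' hb hab hc hb' hab' hc' u u' hu hu' h1 h2
    apply cop_eq hc hc' hb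
    have hbz : (1 : ℤ) ≤ b := by exact_mod_cast hb
    have haz : (0 : ℤ) < a := by exact_mod_cast (by omega : 0 < a)
    have hbz' : (1 : ℤ) ≤ b' := by exact_mod_cast hb'
    have haz' : (0 : ℤ) < a' := by exact_mod_cast (by omega : 0 < a')
    have e1 : u' * (b : ℤ) ^ 2 = u * (b' : ℤ) ^ 2 := by
      have : 6 * (u' * (b : ℤ) ^ 2) = 6 * (u * (b' : ℤ) ^ 2) := by linear_combination h1
      linarith
    have e2 : u' * ((a : ℤ) * (a + 2 * b)) = u * ((a' : ℤ) * (a' + 2 * b')) := by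
      have h3 : (u' * (3 * ((a : ℤ) * (a + 2 * b)))) ^ 2 =
          (u * (3 * ((a' : ℤ) * (a' + 2 * b')))) ^ 2 := by linear_combination h2
      have h4 := (pow_left_inj₀ (by positivity) (by positivity) two_ne_zero).1 h3
      linarith
    have e3 : u' * ((a : ℤ) + b) ^ 2 = u * ((a' : ℤ) + b') ^ 2 := by linear_combination e1 + e2
    have e4 : (u * u') * ((b : ℤ) * (a' + b')) ^ 2 = (u * u') * ((b' : ℤ) * (a + b)) ^ 2 := by
      calc (u * u') * ((b : ℤ) * (a' + b')) ^ 2 =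
          (u' * (b : ℤ) ^ 2) * (u * ((a' : ℤ) + b') ^ 2) := by ring
        _ = (u * (b' : ℤ) ^ 2) * (u' * ((a : ℤ) + b) ^ 2) := by rw [e1, ← e3]
        _ = _ := by ring
    have e5 := mul_left_cancel₀ (mul_pos hu hu').ne' e4
    have e6 := (pow_left_inj₀ (by positivity) (by positivity) two_ne_zero).1 e5
    have e7 : (b : ℤ) * a' = b' * a := by linarith
    exact_mod_cast e7
  · intro a b K hb hab haK
    have haK' : (a : ℤ) ≤ K := by exact_mod_cast haK
    have hbK' : (b : ℤ) ≤ K := by exact_mod_cast (by omega : b ≤ K)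
    have ha0 : (0 : ℤ) ≤ a := Int.natCast_nonneg a
    have hb0 : (0 : ℤ) ≤ b := Int.natCast_nonneg b
    have hK0 : (0 : ℤ) ≤ K := Int.natCast_nonneg K
    have h1 : (a : ℤ) * (a + 2 * b) ≤ 3 * (K : ℤ) ^ 2 := by
      calc (a : ℤ) * (a + 2 * b) ≤ K * (K + 2 * K) :=
            mul_le_mul haK' (by linarith) (by positivity) hK0
        _ = _ := by ring
    have h2 : ((a : ℤ) * (a + 2 * b)) ^ 2 ≤ (3 * (K : ℤ) ^ 2) ^ 2 :=
      pow_le_pow_left₀ (by positivity) h1 2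
    have h3 : (b : ℤ) ^ 4 ≤ (K : ℤ) ^ 4 := pow_le_pow_left₀ hb0 hbK' 4
    have h4 : 0 ≤ ((a : ℤ) * (a + 2 * b)) ^ 2 := sq_nonneg _
    have h5 : (0 : ℤ) ≤ (b : ℤ) ^ 4 := by positivity
    have h6 : (0 : ℤ) ≤ (K : ℤ) ^ 4 := by positivity
    have h7 : (3 * (K : ℤ) ^ 2) ^ 2 = 9 * (K : ℤ) ^ 4 := by ring
    constructor
    · rw [abs_of_nonneg (by positivity)]
      calc (3 * ((a : ℤ) * (a + 2 * b))) ^ 2 = 9 * ((a : ℤ) * (a + 2 * b)) ^ 2 := by ring
        _ ≤ _ := by linarith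
    · rw [abs_le]
      constructor <;> linarith
  · intro K
    push_cast
    exact le_of_eq (by ring)

/-- **Main theorem.** -/
theorem main8 : ∃ α : ℝ, 0 < α ∧ ∃ C : ℝ, ∀ H : ℕ,
    ∑ c ∈ CvN 8 H, ((2 : ℝ) ^ Module.finrank ℤ (Sh c.1 c.2).toAffine.Point) ^ α ≤
      C * (CvN 8 H).card := by
  classical
  obtain ⟨α, hα, -, C, hC, hbox⟩ := avg5
  refine ⟨α, hα, ?_⟩
  apply final_gen (k := 24) (e := 2) (by norm_num) (fun H => CvN 8 H) _
    (fun t : ℤ × ℤ => ((2 : ℝ) ^ Module.finrank ℤ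
        (EAB (-t.1 ^ 4) (-(t.2 ^ 2 - t.1 ^ 2) ^ 2)).toAffine.Point) ^ α)
    (fun t n => t ∈ Box n ∧ IsCoprime t.1 t.2 ∧ ∀ j, F5 t.1 t.2 j ≠ 0)
  · intro t n T h hn
    refine ⟨?_, h.2⟩
    have := h.1
    rw [mem_Box] at this ⊢
    exact ⟨this.1.trans hn, this.2.trans hn⟩
  · refine ⟨10 ^ 11, F8p, fun H => ⟨?_, ?_⟩⟩
    · intro c hc c' hc' hcc
      rw [Finset.mem_coe] at hc hc'
      simp only [CvN, Finset.mem_filter] at hc hc'
      obtain ⟨-, hD, -, -, hmin, hT⟩ := hc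
      obtain ⟨-, hD', -, -, hmin', hT'⟩ := hc'
      have r := F8p_rel (core8 hD hT)
      have r' := F8p_rel (core8 hD' hT')
      change Rel8 c (F8p c) at r
      change Rel8 c' (F8p c') at r'
      rw [← hcc] at r'
      exact rel8_unique r r' hmin hmin'
    · intro c hc
      simp only [CvN, Finset.mem_filter] at hc
      obtain ⟨-, hD, hH, hH', hmin, hT⟩ := hc
      have r := F8p_rel (core8 hD hT)
      change Rel8 c (F8p c) at r
      obtain ⟨hb1, hb2⟩ := rel8_bound (A := c.1) (B := c.2) r hH hH'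
      have hrk := rel8_rank (A := c.1) (B := c.2) r
      refine ⟨max (F8p c).1.natAbs (F8p c).2.natAbs, ⟨?_, ?_⟩, ?_, ?_⟩
      · rw [mem_Box]
        exact ⟨le_max_left _ _, le_max_right _ _⟩
      · obtain ⟨s, t, e, k, -, -, h1, h2, -⟩ := r
        exact ⟨h1, h2⟩
      · rcases max_choice (F8p c).1.natAbs (F8p c).2.natAbs with h | h <;> rw [h]
        · exact hb1
        · exact hb2
      · apply Real.rpow_le_rpow (by positivity) _ hα.le
        exact pow_le_pow_right₀ (by norm_num) hrk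
  · exact low8
  · refine ⟨C, hC, fun T hT S hS => ?_⟩
    exact hbox T hT S (fun t ht => (hS t ht).1) (fun t ht => (hS t ht).2)

end Pool.Agent.R421.Z8
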