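import Pool.Agent.R421.Z8.Frm

/-!
# Project Z8 (helper421): the local conditions, the average over the box
-/

set_option autoImplicit false
set_option linter.all false

namespace Pool.Agent.R421.Z8

open Finset Pool.Agent.W262.RK Pool.Agent.W307.RT Pool.Agent.TH841.PT Pool.Agent.R421.HF
open Pool.Agent.R421.UR
open Pool.Agent.W571.RT (jac_sq)
open Pool.Agent.Y474.Z8 (sg0_neg_one sg0_one val_one)

lemma fin5 : ∀ j : Fin 5, j = 0 ∨ j = 1 ∨ j = 2 ∨ j = 3 ∨ j = 4 := by decide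

lemma diff5 (a b : ℤ) : -a ^ 4 - -(b ^ 2 - a ^ 2) ^ 2 = b ^ 2 * (b ^ 2 - 2 * a ^ 2) := by ring

/-- the constants -/
lemma loc5 {a b : ℤ} (hab : IsCoprime a b) (h0 : ∀ j, F5 a b j ≠ 0) {p : ℕ} (hp : p.Prime)
    (h7 : 7 < p) (j : Fin 5) (θ : Ty) (h : (p : ℤ) ∣ F5 a b j)
    (h' : ¬ (p : ℤ) ^ 2 ∣ F5 a b j) (hty : ty5 j p = some θ) :
    ∃ k : ℤ, ¬ (p : ℤ) ∣ k ∧ LocM (c5 j) k p (-a ^ 4) (-(b ^ 2 - a ^ 2) ^ 2) ∧
      sg0 p k = θ 0 := by
  have hpi : Prime (p : ℤ) := Nat.prime_iff_prime_int.1 hp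
  have nd : ∀ l : Fin 5, j ≠ l → ¬ (p : ℤ) ∣ F5 a b l := fun l hl h3 =>
    hl (un5 hp h7 (cop_nd hab hp) h h3)
  have nd1 : ¬ (p : ℤ) ∣ 1 := fun h => hpi.not_dvd_one h
  have nA : j ≠ 0 → ¬ (p : ℤ) ∣ a := fun e => nd 0 e
  have nB : j ≠ 1 → j ≠ 2 → ¬ (p : ℤ) ∣ b ^ 2 - a ^ 2 := by
    intro e1 e2 h3
    have e : b ^ 2 - a ^ 2 = (b - a) * (b + a) := by ring
    rw [e] at h3
    rcases hpi.dvd_or_dvd h3 with h4 | h4
    · exact nd 1 e1 h4
    · exact nd 2 e2 h4
  rcases fin5 j with rfl | rfl | rfl | rfl | rfl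
  · refine ⟨1, nd1, ?_, ?_⟩
    · unfold LocM
      rw [if_pos (show c5 0 = 0 from rfl)]
      have h3 := nB (by decide) (by decide)
      refine ⟨dvd_neg.2 (dvd_pow (show (p : ℤ) ∣ a from h) (by norm_num)), ?_, ?_,
        Or.inr (jacobiSym.one_left p)⟩
      · rw [dvd_neg]
        exact fun h4 => h3 (hpi.dvd_of_dvd_pow h4)
      · rw [one_mul, neg_neg]
        exact jac_sq hp h3
    · have hθ : θ = tyb false := by
        have : ty5 0 p = some (tyb false) := by simp [ty5]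
        rw [this] at hty
        exact (Option.some.inj hty).symm
      rw [hθ, sg0_one]
      rfl
  · refine ⟨1, nd1, ?_, ?_⟩
    · unfold LocM
      rw [if_neg (show ¬ c5 1 = 0 by decide), if_pos (show c5 1 = 1 from rfl)]
      have h3 := nA (by decide)
      refine ⟨dvd_neg.2 (dvd_pow ?_ (by norm_num)), ?_, ?_, Or.inr (jacobiSym.one_left p)⟩
      · have h4 : (p : ℤ) ∣ b - a := h
        have e : b ^ 2 - a ^ 2 = (b - a) * (b + a) := by ring
        rw [e]
        exact h4.mul_right _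
      · rw [dvd_neg]
        exact fun h4 => h3 (hpi.dvd_of_dvd_pow h4)
      · have e : 1 * -(-a ^ 4) = (a ^ 2) ^ 2 := by ring
        rw [e]
        exact jac_sq hp fun h4 => h3 (hpi.dvd_of_dvd_pow h4)
    · have hθ : θ = tyb false := by
        have : ty5 1 p = some (tyb false) := by simp [ty5]
        rw [this] at hty
        exact (Option.some.inj hty).symm
      rw [hθ, sg0_one]
      rfl
  · refine ⟨1, nd1, ?_, ?_⟩
    · unfold LocM
      rw [if_neg (show ¬ c5 2 = 0 by decide), if_pos (show c5 2 = 1 from rfl)]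
      have h3 := nA (by decide)
      refine ⟨dvd_neg.2 (dvd_pow ?_ (by norm_num)), ?_, ?_, Or.inr (jacobiSym.one_left p)⟩
      · have h4 : (p : ℤ) ∣ b + a := h
        have e : b ^ 2 - a ^ 2 = (b - a) * (b + a) := by ring
        rw [e]
        exact h4.mul_left _
      · rw [dvd_neg]
        exact fun h4 => h3 (hpi.dvd_of_dvd_pow h4)
      · have e : 1 * -(-a ^ 4) = (a ^ 2) ^ 2 := by ring
        rw [e]
        exact jac_sq hp fun h4 => h3 (hpi.dvd_of_dvd_pow h4)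
    · have hθ : θ = tyb false := by
        have : ty5 2 p = some (tyb false) := by simp [ty5]
        rw [this] at hty
        exact (Option.some.inj hty).symm
      rw [hθ, sg0_one]
      rfl
  · -- the form `b`
    have h3 := nA (by decide)
    by_cases h4 : p % 4 = 1
    · have hsg : sg0 p (-1) = false := by
        rw [sg0_neg_one hp (by omega), decide_eq_false_iff_not]
        omega
      have hj1 : jacobiSym (-1) p = 1 := by
        have ho : Odd p := hp.odd_of_ne_two (by omega)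
        rw [jacobiSym.at_neg_one ho]
        exact ZMod.χ₄_nat_one_mod_four h4
      refine ⟨-1, fun h5 => nd1 (dvd_neg.1 h5), ?_, ?_⟩
      · unfold LocM
        rw [if_neg (show ¬ c5 3 = 0 by decide), if_neg (show ¬ c5 3 = 1 by decide)]
        refine ⟨?_, ?_, ?_, Or.inr hj1⟩
        · rw [diff5]
          exact (dvd_pow (show (p : ℤ) ∣ b from h) two_ne_zero).mul_right _
        · rw [dvd_neg]
          exact fun h4 => h3 (hpi.dvd_of_dvd_pow h4)
        · have e : -1 * -a ^ 4 = (a ^ 2) ^ 2 := by ring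
          rw [e]
          exact jac_sq hp fun h4 => h3 (hpi.dvd_of_dvd_pow h4)
      · have hθ : θ = tyb false := by
          have : ty5 3 p = some (tyb false) := by simp [ty5, h4]
          rw [this] at hty
          exact (Option.some.inj hty).symm
        rw [hθ, hsg]
        rfl
    · exfalso
      have : ty5 3 p = none := by simp [ty5, h4]
      rw [this] at hty
      exact absurd hty (by simp)
  · -- the form `b² - 2 a²`
    have h3 := nA (by decide)
    have hb : ¬ (p : ℤ) ∣ b := nd 3 (by decide)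
    refine ⟨-1, fun h5 => nd1 (dvd_neg.1 h5), ?_, ?_⟩
    · unfold LocM
      rw [if_neg (show ¬ c5 4 = 0 by decide), if_neg (show ¬ c5 4 = 1 by decide)]
      have h5 : (p : ℤ) ∣ b ^ 2 - 2 * a ^ 2 := h
      refine ⟨?_, ?_, ?_, Or.inl ?_⟩
      · rw [diff5]
        exact h5.mul_left _
      · rw [dvd_neg]
        exact fun h4 => h3 (hpi.dvd_of_dvd_pow h4)
      · have e : -1 * -a ^ 4 = (a ^ 2) ^ 2 := by ring
        rw [e]
        exact jac_sq hp fun h4 => h3 (hpi.dvd_of_dvd_pow h4)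
      · rw [diff5, mul_comm, val_one hp (x := b ^ 2 - 2 * a ^ 2) (h0 4) h5 h']
        · exact odd_one
        · exact fun h6 => hb (hpi.dvd_of_dvd_pow h6)
    · have hθ : θ = tyb (decide (p % 4 = 3)) := by
        have : ty5 4 p = some (tyb (decide (p % 4 = 3))) := by simp [ty5]
        rw [this] at hty
        exact (Option.some.inj hty).symm
      rw [hθ, sg0_neg_one hp (by omega)]
      rfl

lemma neu5 {a b : ℤ} (hab : IsCoprime a b) (h0 : ∀ j, F5 a b j ≠ 0) {p : ℕ} (hp : p.Prime)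
    (h7 : 7 < p) (j : Fin 5) (h : (p : ℤ) ∣ F5 a b j) (hty : ty5 j p = none) :
    NeuM (c5 j) p (-a ^ 4) (-(b ^ 2 - a ^ 2) ^ 2) := by
  have hpi : Prime (p : ℤ) := Nat.prime_iff_prime_int.1 hp
  have hj : j = 3 ∧ ¬ p % 4 = 1 := by
    unfold ty5 at hty
    rcases fin5 j with rfl | rfl | rfl | rfl | rfl <;> simp at hty ⊢
    exact hty
  obtain ⟨rfl, h4⟩ := hj
  have nd : ∀ l : Fin 5, 3 ≠ l → ¬ (p : ℤ) ∣ F5 a b l := fun l hl h3 =>
    hl (un5 hp h7 (cop_nd hab hp) h h3)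
  have h3 : ¬ (p : ℤ) ∣ a := nd 0 (by decide)
  have hq : ¬ (p : ℤ) ∣ b ^ 2 - 2 * a ^ 2 := nd 4 (by decide)
  have ho : Odd p := hp.odd_of_ne_two (by omega)
  have h43 : p % 4 = 3 := by
    obtain ⟨k, hk⟩ := ho
    omega
  have hb0 : b ≠ 0 := h0 3
  have hq0 : b ^ 2 - 2 * a ^ 2 ≠ 0 := h0 4
  unfold NeuM
  rw [if_neg (show ¬ c5 3 = 0 by decide), if_neg (show ¬ c5 3 = 1 by decide)]
  refine ⟨?_, ?_, ?_, ?_⟩
  · rw [diff5]
    exact (dvd_pow (show (p : ℤ) ∣ b from h) two_ne_zero).mul_right _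
  · rw [dvd_neg]
    exact fun h4 => h3 (hpi.dvd_of_dvd_pow h4)
  · haveI : Fact p.Prime := ⟨hp⟩
    rw [diff5, padicValInt.mul (pow_ne_zero 2 hb0) hq0, padicValInt.eq_zero_of_not_dvd hq,
      add_zero, pow_two, padicValInt.mul hb0 hb0]
    exact ⟨_, rfl⟩
  · have e : -a ^ 4 = -1 * (a ^ 2) ^ 2 := by ring
    have e1 : jacobiSym (-1) p = -1 := by
      rw [jacobiSym.at_neg_one ho]
      exact ZMod.χ₄_nat_three_mod_four h43
    rw [e, jacobiSym.mul_left, jac_sq hp (fun h4 => h3 (hpi.dvd_of_dvd_pow h4)), e1]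
    norm_num

lemma ok5 : D5.OK where
  cls3 := by intro j; show c5 j ≠ 3; revert j; decide
  c1 := by show 1 ≤ 6; norm_num
  ne := by
    intro a b h
    show -a ^ 4 ≠ 0 ∧ -(b ^ 2 - a ^ 2) ^ 2 ≠ 0 ∧ -a ^ 4 ≠ -(b ^ 2 - a ^ 2) ^ 2
    have h0 : a ≠ 0 := h 0
    have h1 : b - a ≠ 0 := h 1
    have h2 : b + a ≠ 0 := h 2
    have h3 : b ≠ 0 := h 3
    have h4 : b ^ 2 - 2 * a ^ 2 ≠ 0 := h 4
    refine ⟨neg_ne_zero.2 (pow_ne_zero _ h0), ?_, ?_⟩
    · have e : b ^ 2 - a ^ 2 = (b - a) * (b + a) := by ring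
      rw [e]
      exact neg_ne_zero.2 (pow_ne_zero _ (mul_ne_zero h1 h2))
    · rw [Ne, ← sub_eq_zero, diff5]
      exact mul_ne_zero (pow_ne_zero 2 h3) h4
  cong := by
    intro p w a a' j h h1
    change (p : ℤ) ∣ F5 a (w + 2 * a) j at h1
    show (p : ℤ) ∣ F5 a' (w + 2 * a') j
    rw [dvd_F5] at h1 ⊢
    have h2 : (a : ZMod p) = (a' : ZMod p) := by
      rw [ZMod.intCast_eq_intCast_iff_dvd_sub, ← dvd_neg, neg_sub]
      exact h
    push_cast at h1 ⊢
    rwa [← h2]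
  un := fun p hp hz a b hab j l h1 h2 => un5 hp hz hab h1 h2
  ndw := fun p hp hz w a hab j h => ndw5 hp hz hab h
  hens := fun p hp hz w a a' hw j h1 h2 h3 => hens5 hp hz hw h1 h2 h3
  card := fun p hp hz w N hw j hty => card5 hp hz N hw j hty
  nr0 := by
    intro j p h
    change ty5 j p = none at h
    show nr5 j p = 0
    unfold ty5 at h
    unfold nr5
    rcases fin5 j with rfl | rfl | rfl | rfl | rfl <;> simp at h ⊢
    exact h
  nrs := by
    intro p
    show ∑ j, nr5 j p ≤ 6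
    unfold nr5
    rw [Fin.sum_univ_five]
    simp
    split_ifs <;> norm_num
  sz := fun X a b ha hb hX j => sz5 ha hb hX j
  bad := by
    intro p hp hz a b h
    change (p : ℤ) ∣ 2 * -a ^ 4 * -(b ^ 2 - a ^ 2) ^ 2 * (-a ^ 4 - -(b ^ 2 - a ^ 2) ^ 2) at h
    show ∃ j, (p : ℤ) ∣ F5 a b j
    have hpi : Prime (p : ℤ) := Nat.prime_iff_prime_int.1 hp
    have h7 : 7 < p := hz
    rw [diff5] at h
    rcases hpi.dvd_or_dvd h with h1 | h1
    · rcases hpi.dvd_or_dvd h1 with h2 | h2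
      · rcases hpi.dvd_or_dvd h2 with h3 | h3
        · exfalso
          have := Int.le_of_dvd (by norm_num) h3
          omega
        · exact ⟨0, hpi.dvd_of_dvd_pow (dvd_neg.1 h3)⟩
      · have h3 := hpi.dvd_of_dvd_pow (dvd_neg.1 h2)
        have e : b ^ 2 - a ^ 2 = (b - a) * (b + a) := by ring
        rw [e] at h3
        rcases hpi.dvd_or_dvd h3 with h4 | h4
        · exact ⟨1, h4⟩
        · exact ⟨2, h4⟩
    · rcases hpi.dvd_or_dvd h1 with h2 | h2
      · exact ⟨3, hpi.dvd_of_dvd_pow h2⟩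
      · exact ⟨4, h2⟩
  loc := fun p hp hz a b hab h0 j θ h1 h2 h3 => loc5 hab h0 hp hz j θ h1 h2 h3
  neu := fun p hp hz a b hab h0 j h1 h2 => neu5 hab h0 hp hz j h1 h2

/-- the coefficients of the weights -/
noncomputable def P5 (j : Fin 5) (κ : ℤ) : ℝ :=
  if j.val < 3 then (if κ = 1 then 1 else 0)
  else if j.val = 3 then (if κ = 1 then 1 / 2 else if κ = -1 then 1 / 2 else 0)
  else (if κ = 1 then 1 else if κ = 2 then 1 else 0)

/-- the coefficients of the signed weights -/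
noncomputable def Q5 (j : Fin 5) (κ : ℤ) : ℝ :=
  if j.val < 3 then (if κ = 1 then 1 else 0)
  else if j.val = 3 then (if κ = 1 then 1 / 2 else if κ = -1 then 1 / 2 else 0)
  else (if κ = -1 then 1 else if κ = -2 then 1 else 0)

lemma sum_tyb (f : Ty → ℝ) (b : Bool) (x : ℝ) (h : ∀ θ, f θ = if tyb b = θ then x else 0) :
    ∑ θ, f θ = x := by
  rw [sum_congr rfl fun θ _ => h θ, sum_ite_eq, if_pos (mem_univ _)]

lemma sumK (f : ℤ → ℝ) : ∑ κ ∈ ({1, -1, 2, -2} : Finset ℤ), f κ = f 1 + f (-1) + f 2 + f (-2) := by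
  rw [sum_insert (by decide), sum_insert (by decide), sum_insert (by decide), sum_singleton]
  ring

lemma gP5 (j : Fin 5) {p : ℕ} (hp : p.Prime) (hz : 7 < p) :
    rs D5.g j p = ∑ κ ∈ ({1, -1, 2, -2} : Finset ℤ), P5 j κ * Jr κ p := by
  rw [ok5.rs_eq]
  show ((nr5 j p : ℕ) : ℝ) = _
  have hodd : p % 2 = 1 := (hp.eq_two_or_odd).resolve_left (by omega)
  rw [sumK, Pool.Agent.Y776.Z8.jr_neg_one hodd, Pool.Agent.Y776.Z8.jr_two hodd, Jr_one']
  unfold nr5 P5
  rcases fin5 j with rfl | rfl | rfl | rfl | rfl <;> simp <;> split_ifs <;> norm_num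

lemma gQ5 (j : Fin 5) {p : ℕ} (hp : p.Prime) (hz : 7 < p) :
    ∑ θ : Ty, (if θ 0 = true then -1 else 1) * D5.g (j, θ) p =
      ∑ κ ∈ ({1, -1, 2, -2} : Finset ℤ), Q5 j κ * Jr κ p := by
  have hodd : p % 2 = 1 := (hp.eq_two_or_odd).resolve_left (by omega)
  rw [sumK, Pool.Agent.Y776.Z8.jr_neg_one hodd, Pool.Agent.Y776.Z8.jr_neg_two hodd, Jr_one']
  have hg : ∀ (b : Bool), ty5 j p = some (tyb b) →
      ∑ θ : Ty, (if θ 0 = true then -1 else 1) * D5.g (j, θ) p =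
        (if b = true then -1 else 1) * (nr5 j p : ℝ) := by
    intro b hb
    refine sum_tyb _ b _ fun θ => ?_
    show (if θ 0 = true then -1 else 1) *
      (if ty5 j p = some θ then ((nr5 j p : ℕ) : ℝ) else 0) = _
    rw [hb]
    by_cases h : tyb b = θ
    · subst h
      rw [if_pos rfl, if_pos rfl]
      rfl
    · rw [if_neg h, if_neg (fun h1 => h (Option.some.inj h1)), mul_zero]
  have hg0 : ty5 j p = none →
      ∑ θ : Ty, (if θ 0 = true then -1 else 1) * D5.g (j, θ) p = 0 := by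
    intro hb
    refine sum_eq_zero fun θ _ => ?_
    show _ * (if ty5 j p = some θ then ((nr5 j p : ℕ) : ℝ) else 0) = _
    rw [hb]
    simp
  rcases fin5 j with rfl | rfl | rfl | rfl | rfl
  · rw [hg false (by simp [ty5])]
    simp [nr5, Q5]
  · rw [hg false (by simp [ty5])]
    simp [nr5, Q5]
  · rw [hg false (by simp [ty5])]
    simp [nr5, Q5]
  · by_cases h4 : p % 4 = 1
    · rw [hg false (by simp [ty5, h4])]
      simp [nr5, Q5, h4]
      norm_num
    · rw [hg0 (by simp [ty5, h4])]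
      simp [Q5, h4]
  · rw [hg (decide (p % 4 = 3)) (by simp [ty5])]
    have h8 : p % 8 = 1 ∨ p % 8 = 3 ∨ p % 8 = 5 ∨ p % 8 = 7 := by omega
    rcases h8 with h | h | h | h
    · have h4 : p % 4 = 1 := by omega
      simp [nr5, Q5, h, h4]
      norm_num
    · have h4 : p % 4 = 3 := by omega
      simp [nr5, Q5, h, h4]
    · have h4 : p % 4 = 1 := by omega
      simp [nr5, Q5, h, h4]
    · have h4 : p % 4 = 3 := by omega
      simp [nr5, Q5, h, h4]
      norm_num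

lemma notsq (κ : ℤ) (h : κ ∈ ({1, -1, 2, -2} : Finset ℤ)) :
    κ ≠ 0 ∧ (κ = 1 ∨ ∀ r : ℤ, r ^ 2 ≠ κ) := by
  rw [mem_insert, mem_insert, mem_insert, mem_singleton] at h
  rcases h with rfl | rfl | rfl | rfl
  · exact ⟨by norm_num, Or.inl rfl⟩
  · exact ⟨by norm_num, Or.inr fun r hr => by nlinarith [sq_nonneg r]⟩
  · refine ⟨by norm_num, Or.inr fun r hr => ?_⟩
    have h1 : r < 2 := by nlinarith
    have h2 : -2 < r := by nlinarith
    interval_cases r <;> norm_num at hr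
  · exact ⟨by norm_num, Or.inr fun r hr => by nlinarith [sq_nonneg r]⟩

/-- the average over the box -/
theorem avg5 : ∃ α : ℝ, 0 < α ∧ α ≤ 1 ∧ ∃ C : ℝ, 0 ≤ C ∧ ∀ T : ℕ, 1 ≤ T →
    ∀ S : Finset (ℤ × ℤ), S ⊆ Box T → (∀ t ∈ S, IsCoprime t.1 t.2 ∧ ∀ j, F5 t.1 t.2 j ≠ 0) →
    ∑ t ∈ S, ((2 : ℝ) ^ Module.finrank ℤ
        (EAB (-t.1 ^ 4) (-(t.2 ^ 2 - t.1 ^ 2) ^ 2)).toAffine.Point) ^ α ≤ C * (T : ℝ) ^ 2 := by
  have hP0 : ∀ j κ, 0 ≤ P5 j κ := by
    intro j κ
    unfold P5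
    split_ifs <;> norm_num
  have hQ0 : ∀ j κ, 0 ≤ Q5 j κ := by
    intro j κ
    unfold Q5
    split_ifs <;> norm_num
  have hm := mdlG D5.cls ok5.cls3 D5.g D5.c 7 {1, -1, 2, -2} P5 Q5 (by decide) notsq hP0 hQ0
    (fun j p hp hz => gP5 j hp hz) (fun j p hp hz => gQ5 j hp hz) ok5.c1 D5.g_nonneg
    (fun j p => by rw [ok5.rs_eq]; exact_mod_cast ok5.nr_le j p)
  have a1 : ∀ j : Fin 5, 0 < P5 j 1 := by
    intro j
    rcases fin5 j with rfl | rfl | rfl | rfl | rfl <;> simp [P5]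
  have a2 : ∀ j : Fin 5, 0 ≤ (P5 j 1 + Q5 j 1) / 2 := by
    intro j
    have h1 := hP0 j 1
    have h2 := hQ0 j 1
    positivity
  have a3 : ∀ k : Fin 4, k ≠ 3 → Wc D5.cls (fun j => (P5 j 1 + Q5 j 1) / 2) k <
      Wo D5.cls (fun j => P5 j 1) - Wc D5.cls (fun j => P5 j 1) k := by
    intro k hk
    have e1 : ∀ f : Fin 5 → ℝ, Wc D5.cls f k = ∑ j, if c5 j = k then f j else 0 := by
      intro f
      unfold Wc
      rw [sum_filter]
      rfl
    have e2 : ∀ f : Fin 5 → ℝ, Wo D5.cls f = ∑ j, if c5 j ≠ 3 then f j else 0 := by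
      intro f
      unfold Wo
      rw [sum_filter]
      rfl
    rw [e1, e1, e2]
    simp only [Fin.sum_univ_five]
    have h4 : ∀ k : Fin 4, k ≠ 3 → k = 0 ∨ k = 1 ∨ k = 2 := by decide
    rcases h4 k hk with rfl | rfl | rfl
    · simp [c5, P5, Q5]
      norm_num
    · simp [c5, P5, Q5]
      norm_num
    · simp [c5, P5, Q5]
      norm_num
  exact avgS D5 ok5 _ _ a1 a2 a3 hm

end Pool.Agent.R421.Z8
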