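import Pool.Agent.R421.HF.Avg
import Pool.Agent.R421.HF.MdlG

/-!
# Project Z8 (helper421): the family of the curves with a point of order eight, up to isogeny

`y² = x (x + a⁴) (x + (b² - a²)²)`: the forms `a` (class 0), `b - a`, `b + a` (class 1), `b`,
`b² - 2 a²` (class 2).
-/

set_option autoImplicit false
set_option linter.all false

namespace Pool.Agent.R421.Z8

open Finset Pool.Agent.W262.RK Pool.Agent.W307.RT Pool.Agent.TH841.PT Pool.Agent.R421.HF
open Pool.Agent.R421.UR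

/-- the five forms over a ring -/
def Fr {R : Type*} [CommRing R] (a b : R) (j : Fin 5) : R :=
  ![a, b - a, b + a, b, b ^ 2 - 2 * a ^ 2] j

/-- the five forms -/
def F5 (a b : ℤ) (j : Fin 5) : ℤ := ![a, b - a, b + a, b, b ^ 2 - 2 * a ^ 2] j

/-- the classes -/
def c5 : Fin 5 → Fin 4 := ![0, 1, 1, 2, 2]

/-- the type with the bit `b` -/
def tyb (b : Bool) : Ty := fun k => if k = 0 then b else false

/-- the types -/
def ty5 (j : Fin 5) (p : ℕ) : Option Ty :=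
  if j.val < 3 then some (tyb false)
  else if j.val = 3 then (if p % 4 = 1 then some (tyb false) else none)
  else some (tyb (decide (p % 4 = 3)))

/-- the numbers of the roots -/
def nr5 (j : Fin 5) (p : ℕ) : ℕ :=
  if j.val < 3 then 1 else if j.val = 3 then (if p % 4 = 1 then 1 else 0)
  else (if p % 8 = 1 ∨ p % 8 = 7 then 2 else 0)

/-- the family -/
def D5 : HFam (Fin 5) where
  F := F5
  cls := c5
  A := fun a _ => -a ^ 4
  B := fun a b => -(b ^ 2 - a ^ 2) ^ 2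
  κ := 2
  z1 := 7
  c := 6
  dg := 2
  ty := ty5
  nr := nr5

lemma cast_F5 (p : ℕ) (a b : ℤ) (j : Fin 5) :
    ((F5 a b j : ℤ) : ZMod p) = Fr (a : ZMod p) (b : ZMod p) j := by
  fin_cases j <;> simp [F5, Fr]

lemma dvd_F5 {p : ℕ} (a b : ℤ) (j : Fin 5) :
    (p : ℤ) ∣ F5 a b j ↔ Fr (a : ZMod p) (b : ZMod p) j = 0 := by
  rw [← ZMod.intCast_zmod_eq_zero_iff_dvd, cast_F5]

/-- two different forms have no common zero -/
lemma un_field {F : Type*} [Field F] (h2 : (2 : F) ≠ 0) {a b : F} {j l : Fin 5}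
    (hj : Fr a b j = 0) (hl : Fr a b l = 0) (hjl : j ≠ l) : a = 0 ∧ b = 0 := by
  have k1 : ∀ x : F, 2 * x = 0 → x = 0 := fun x hx => (mul_eq_zero.1 hx).resolve_left h2
  have k2 : ∀ x : F, x ^ 2 = 0 → x = 0 := fun x hx => (pow_eq_zero_iff two_ne_zero).1 hx
  wlog hlt : j < l generalizing j l with H
  · exact H hl hj hjl.symm (lt_of_le_of_ne (not_lt.1 hlt) hjl.symm)
  fin_cases j <;> fin_cases l <;> simp [Fr] at hj hl hlt ⊢
  all_goals grind

lemma un5 {p : ℕ} (hp : p.Prime) (h7 : 7 < p) {a b : ℤ} (hab : ¬ ((p : ℤ) ∣ a ∧ (p : ℤ) ∣ b))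
    {j l : Fin 5} (hj : (p : ℤ) ∣ F5 a b j) (hl : (p : ℤ) ∣ F5 a b l) : j = l := by
  haveI : Fact p.Prime := ⟨hp⟩
  have n2 : (2 : ZMod p) ≠ 0 := by
    simpa using Pool.Agent.Y515.Z8.two_ne h7 2 (by norm_num) (by norm_num)
  by_contra hjl
  rw [dvd_F5] at hj hl
  have h4 := un_field n2 hj hl hjl
  rw [ZMod.intCast_zmod_eq_zero_iff_dvd, ZMod.intCast_zmod_eq_zero_iff_dvd] at h4
  exact hab h4

lemma ndw5 {p : ℕ} (hp : p.Prime) (h7 : 7 < p) {w a : ℤ} (hab : IsCoprime a (w + 2 * a))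
    {j : Fin 5} (hj : (p : ℤ) ∣ F5 a (w + 2 * a) j) : ¬ (p : ℤ) ∣ w := by
  haveI : Fact p.Prime := ⟨hp⟩
  intro hw
  have n2 : (2 : ZMod p) ≠ 0 := by
    simpa using Pool.Agent.Y515.Z8.two_ne h7 2 (by norm_num) (by norm_num)
  have n3 : (3 : ZMod p) ≠ 0 := by
    simpa using Pool.Agent.Y515.Z8.two_ne h7 3 (by norm_num) (by norm_num)
  rw [dvd_F5] at hj
  push_cast at hj
  rw [← ZMod.intCast_zmod_eq_zero_iff_dvd] at hw
  rw [hw] at hj
  have ha : (a : ZMod p) = 0 := by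
    generalize (a : ZMod p) = x at hj
    have k2 : ∀ y : ZMod p, y ^ 2 = 0 → y = 0 := fun y hy => (pow_eq_zero_iff two_ne_zero).1 hy
    fin_cases j <;> simp [Fr] at hj
    · exact hj
    · linear_combination hj
    · have : 3 * x = 0 := by linear_combination hj
      exact (mul_eq_zero.1 this).resolve_left n3
    · exact hj.resolve_left n2
    · have : 2 * x ^ 2 = 0 := by linear_combination hj
      exact k2 _ ((mul_eq_zero.1 this).resolve_left n2)
  rw [ZMod.intCast_zmod_eq_zero_iff_dvd] at ha hw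
  have h5 := hab.isUnit_of_dvd' ha (dvd_add hw (ha.mul_left 2))
  rw [Int.isUnit_iff] at h5
  have := hp.one_lt
  omega

lemma hens5 {p : ℕ} (hp : p.Prime) (h7 : 7 < p) {w a a' : ℤ} (hw : ¬ (p : ℤ) ∣ w) {j : Fin 5}
    (h1 : (p : ℤ) ∣ a - a') (h2 : (p : ℤ) ^ 2 ∣ F5 a (w + 2 * a) j)
    (h3 : (p : ℤ) ^ 2 ∣ F5 a' (w + 2 * a') j) : (p : ℤ) ^ 2 ∣ a - a' := by
  have hpI : Prime (p : ℤ) := Nat.prime_iff_prime_int.1 hp
  have hsm : ∀ n : ℕ, 0 < n → n ≤ 7 → ¬ (p : ℤ) ∣ (n : ℤ) := by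
    intro n hn hn7 h
    have := Nat.le_of_dvd hn (Int.natCast_dvd_natCast.1 h)
    omega
  have n2 : ¬ (p : ℤ) ∣ 2 := hsm 2 (by norm_num) (by norm_num)
  have n3 : ¬ (p : ℤ) ∣ 3 := hsm 3 (by norm_num) (by norm_num)
  have n4 : ¬ (p : ℤ) ∣ 4 := hsm 4 (by norm_num) (by norm_num)
  have hF : (p : ℤ) ∣ F5 a (w + 2 * a) j := (dvd_pow_self (p : ℤ) two_ne_zero).trans h2
  have main : ∀ q : ℤ, F5 a (w + 2 * a) j - F5 a' (w + 2 * a') j = q * (a - a') →
      ¬ (p : ℤ) ∣ q → (p : ℤ) ^ 2 ∣ a - a' := by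
    intro q hq hpq
    have h5 : (p : ℤ) ^ 2 ∣ q * (a - a') := by
      rw [← hq]
      exact dvd_sub h2 h3
    have hcop : IsCoprime ((p : ℤ) ^ 2) q := by
      apply IsCoprime.pow_left
      rw [hpI.coprime_iff_not_dvd]
      exact hpq
    exact hcop.dvd_of_dvd_mul_left h5
  have hw2 : ¬ (p : ℤ) ∣ w ^ 2 := fun h => hw (hpI.dvd_of_dvd_pow h)
  fin_cases j
  · exact main 1 (by simp [F5]) (fun h => hpI.not_dvd_one h)
  · exact main 1 (by simp [F5]; ring) (fun h => hpI.not_dvd_one h)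
  · exact main 3 (by simp [F5]; ring) n3
  · exact main 2 (by simp [F5]; ring) n2
  · refine main (4 * w + 2 * (a + a')) (by simp [F5]; ring) (fun h => ?_)
    simp [F5] at hF
    have e1 : (p : ℤ) ∣ 4 * (w + a) := by
      have : 4 * (w + a) = (4 * w + 2 * (a + a')) + 2 * (a - a') := by ring
      rw [this]
      exact dvd_add h (h1.mul_left 2)
    have e2 := (hpI.dvd_or_dvd e1).resolve_left n4
    apply hw2
    have : w ^ 2 = 2 * (w + a) * (w + a) - ((w + 2 * a) ^ 2 - 2 * a ^ 2) := by ring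
    rw [this]
    exact dvd_sub (e2.mul_left _) hF

lemma card_root5 {p : ℕ} [hp : Fact p.Prime] (h7 : 7 < p) {w : ZMod p} (hw : w ≠ 0) (j : Fin 5)
    (hty : ty5 j p ≠ none) :
    (univ.filter (fun x : ZMod p => Fr x (w + 2 * x) j = 0)).card = nr5 j p := by
  have n2 : (2 : ZMod p) ≠ 0 := by
    simpa using Pool.Agent.Y515.Z8.two_ne h7 2 (by norm_num) (by norm_num)
  have n3 : (3 : ZMod p) ≠ 0 := by
    simpa using Pool.Agent.Y515.Z8.two_ne h7 3 (by norm_num) (by norm_num)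
  fin_cases j
  · exact Pool.Agent.Y515.Z8.card_one (fun x => Fr x (w + 2 * x) 0 = 0) 0 (fun x => by simp [Fr])
  · refine Pool.Agent.Y515.Z8.card_one (fun x => Fr x (w + 2 * x) 1 = 0) (-w) (fun x => ?_)
    simp only [Fr]
    simp
    exact ⟨fun h => by linear_combination h, fun h => by linear_combination h⟩
  · refine Pool.Agent.Y515.Z8.card_one (fun x => Fr x (w + 2 * x) 2 = 0) (-w / 3) (fun x => ?_)
    simp only [Fr]
    simp
    rw [eq_div_iff n3]
    exact ⟨fun h => by linear_combination h, fun h => by linear_combination h⟩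
  · have h4 : p % 4 = 1 := by
      by_contra h
      apply hty
      simp [ty5, h]
    have e : nr5 3 p = 1 := by simp [nr5, h4]
    refine (Pool.Agent.Y515.Z8.card_one (fun x => Fr x (w + 2 * x) 3 = 0) (-w / 2)
      (fun x => ?_)).trans e.symm
    simp only [Fr]
    simp
    rw [eq_div_iff n2]
    exact ⟨fun h => by linear_combination h, fun h => by linear_combination h⟩
  · have h := Pool.Agent.Y515.Z8.card_quad (2 : ZMod p) 2 2 w n2 hw
      (fun x => Fr x (w + 2 * x) 4 = 0) (by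
      intro x
      rw [div_pow, div_eq_iff (pow_ne_zero 2 hw)]
      have e : (2 * x + 2 * w) ^ 2 - 2 * w ^ 2 = 2 * Fr x (w + 2 * x) 4 := by
        simp only [Fr]
        simp
        ring
      rw [← sub_eq_zero (b := 2 * w ^ 2), e, mul_eq_zero]
      exact ⟨Or.inr, fun h => h.resolve_left n2⟩)
    rw [Pool.Agent.Y515.Z8.card_2 h7] at h
    exact h

lemma card5 {p : ℕ} (hp : p.Prime) (h7 : 7 < p) {w : ℤ} (N : ℤ) (hw : ¬ (p : ℤ) ∣ w)
    (j : Fin 5) (hty : ty5 j p ≠ none) :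
    ((range p).filter (fun n : ℕ => (p : ℤ) ∣
      F5 ((n : ℤ) - N) (w + 2 * ((n : ℤ) - N)) j)).card = nr5 j p := by
  haveI : Fact p.Prime := ⟨hp⟩
  have hw' : (w : ZMod p) ≠ 0 := by rwa [Ne, ZMod.intCast_zmod_eq_zero_iff_dvd]
  rw [← card_root5 h7 hw' j hty]
  refine Pool.Agent.Y515.Z8.card_range N (fun x => Fr x ((w : ZMod p) + 2 * x) j = 0) _
    (fun n => ?_)
  rw [dvd_F5]
  push_cast
  rfl

lemma sz5 {X : ℕ} {a b : ℤ} (ha : a.natAbs ≤ X) (hb : b.natAbs ≤ X) (hX : 1 ≤ X)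
    (j : Fin 5) : (F5 a b j).natAbs ≤ 7 * X ^ 2 := by
  have hX' : (1 : ℤ) ≤ X := by exact_mod_cast hX
  have ha' : |a| ≤ X := by
    rw [Int.abs_eq_natAbs]
    exact_mod_cast ha
  have hb' : |b| ≤ X := by
    rw [Int.abs_eq_natAbs]
    exact_mod_cast hb
  obtain ⟨a1, a2⟩ := abs_le.1 ha'
  obtain ⟨b1, b2⟩ := abs_le.1 hb'
  have hXX : (X : ℤ) ≤ X ^ 2 := by nlinarith
  have haa : a ^ 2 ≤ X ^ 2 := by nlinarith
  have hbb : b ^ 2 ≤ X ^ 2 := by nlinarith
  have hsa := sq_nonneg a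
  have hsb := sq_nonneg b
  have key : ∀ x : ℤ, |x| ≤ 7 * (X : ℤ) ^ 2 → x.natAbs ≤ 7 * X ^ 2 := by
    intro x hx
    rw [Int.abs_eq_natAbs] at hx
    exact_mod_cast hx
  apply key
  fin_cases j
  · show |a| ≤ _
    rw [abs_le]
    constructor <;> linarith
  · show |b - a| ≤ _
    rw [abs_le]
    constructor <;> linarith
  · show |b + a| ≤ _
    rw [abs_le]
    constructor <;> linarith
  · show |b| ≤ _
    rw [abs_le]
    constructor <;> linarith
  · show |b ^ 2 - 2 * a ^ 2| ≤ _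
    rw [abs_le]
    constructor <;> linarith

end Pool.Agent.R421.Z8
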