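import Pool.Agent.R421.HF.Cor4
import Pool.Agent.R421.Z8.Fam

/-!
# Project Z8: the parameters of the curves with a point of order eight
-/

set_option autoImplicit false
set_option linter.all false

namespace Pool.Agent.R421.Z8

open WeierstrassCurve.Affine Pool.Agent.W262.RK Pool.Agent.W307.RT Pool.Agent.R421.HF
open Pool.Agent.W605.RT (sh_eq sh_negY two_tors int_root int_sqrt root_sq)

/-- the coordinates of the double of a point (after `Y87/Z8/PAR`) -/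
theorem dbl {A B : ℤ} {P : (Sh A B).toAffine.Point} {x' y' : ℚ}
    {h' : (Sh A B).toAffine.Nonsingular x' y'} (hPP : P + P = Point.some x' y' h') :
    ∃ (x y : ℚ) (h : (Sh A B).toAffine.Nonsingular x y), P = Point.some x y h ∧ y ≠ 0 ∧
      y ^ 2 = x ^ 3 + A * x + B ∧ x' = ((3 * x ^ 2 + A) / (2 * y)) ^ 2 - 2 * x := by
  rcases P with _ | ⟨x, y, hxy⟩
  · exfalso
    have h1 : (Point.zero : (Sh A B).toAffine.Point) + Point.zero = 0 := add_zero _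
    rw [h1] at hPP
    exact Point.some_ne_zero _ hPP.symm
  · have hxy' := sh_eq.mp hxy.1
    by_cases hy : y = (Sh A B).toAffine.negY x y
    · exfalso
      rw [Point.add_self_of_Y_eq hy] at hPP
      exact Point.some_ne_zero _ hPP.symm
    · rw [Point.add_self_of_Y_ne hy] at hPP
      have hX := (Point.some.inj hPP).1
      rw [sh_negY] at hy
      have hy0 : y ≠ 0 := by
        intro h0
        apply hy
        rw [h0]; simp
      refine ⟨x, y, hxy, rfl, hy0, hxy', ?_⟩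
      rw [← hX, WeierstrassCurve.Affine.addX,
        WeierstrassCurve.Affine.slope_of_Y_ne rfl (by rwa [sh_negY]), sh_negY]
      simp only [Sh]
      ring

/-- number theory -/
theorem nt {s w v : ℤ} (hs : s ≠ 0) (hw : w ≠ 0) (h : s * w = v ^ 2) :
    ∃ k m n : ℤ, k ≠ 0 ∧ IsCoprime m n ∧ s = k * m ^ 2 ∧ w = k * n ^ 2 := by
  have hg0 : 0 < Int.gcd s w := Int.gcd_pos_of_ne_zero_left _ hs
  obtain ⟨a0, b0, hab, ha, hb⟩ := Int.exists_gcd_one hg0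
  set g : ℤ := (Int.gcd s w : ℤ) with hg
  have hgpos : 0 < g := by rw [hg]; exact_mod_cast hg0
  have e1 : g ^ 2 * (a0 * b0) = v ^ 2 := by rw [← h, ha, hb]; ring
  have d1 : g ∣ v := by
    have : g ^ 2 ∣ v ^ 2 := ⟨_, e1.symm⟩
    exact (Int.pow_dvd_pow_iff two_ne_zero).1 this
  obtain ⟨r, hr⟩ := d1
  have e2 : a0 * b0 = r ^ 2 := by
    have : g ^ 2 * (a0 * b0) = g ^ 2 * r ^ 2 := by rw [e1, hr]; ring
    exact mul_left_cancel₀ (pow_ne_zero 2 hgpos.ne') this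
  have ha0 : a0 ≠ 0 := by
    rintro rfl
    exact hs (by rw [ha]; simp)
  have hb0 : b0 ≠ 0 := by
    rintro rfl
    exact hw (by rw [hb]; simp)
  have hpos : 0 < a0 * b0 := by
    rw [e2]
    have : r ^ 2 ≠ 0 := by
      rw [← e2]
      exact mul_ne_zero ha0 hb0
    positivity
  obtain ⟨m, hm⟩ := Int.sq_of_gcd_eq_one hab e2
  have hab' : Int.gcd b0 a0 = 1 := by rw [Int.gcd_comm]; exact hab
  obtain ⟨n, hn⟩ := Int.sq_of_gcd_eq_one hab' (by rw [mul_comm]; exact e2)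
  have hmn : IsCoprime m n := by
    have h3 : IsCoprime (m ^ 2) (n ^ 2) := by
      have h4 : IsCoprime a0 b0 := Int.isCoprime_iff_gcd_eq_one.mpr hab
      rcases hm with h5 | h5 <;> rcases hn with h6 | h6 <;> rw [h5, h6] at h4
      · exact h4
      · exact (IsCoprime.neg_right_iff _ _).1 h4
      · exact (IsCoprime.neg_left_iff _ _).1 h4
      · exact (IsCoprime.neg_neg_iff _ _).1 h4
    exact (IsCoprime.pow_iff two_pos two_pos).1 h3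
  have hm2 := sq_nonneg m
  have hn2 := sq_nonneg n
  rcases hm with h5 | h5
  · rcases hn with h6 | h6
    · exact ⟨g, m, n, hgpos.ne', hmn, by rw [ha, h5]; ring, by rw [hb, h6]; ring⟩
    · exfalso
      rw [h5, h6] at hpos
      nlinarith
  · rcases hn with h6 | h6
    · exfalso
      rw [h5, h6] at hpos
      nlinarith
    · exact ⟨-g, m, n, neg_ne_zero.2 hgpos.ne', hmn, by rw [ha, h5]; ring, by rw [hb, h6]; ring⟩

/-- the relation between a curve and its parameters -/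
def Rel8 (c mn : ℤ × ℤ) : Prop := ∃ s t e k : ℤ, Rel4 c.1 c.2 s t e ∧ k ≠ 0 ∧
  IsCoprime mn.1 mn.2 ∧ (∀ j, F5 mn.1 mn.2 j ≠ 0) ∧ s = k * mn.1 ^ 2 ∧
  4 * t = k ^ 2 * (mn.2 ^ 2 - mn.1 ^ 2) ^ 2

theorem core8 {A B : ℤ} (hD : 4 * A ^ 3 + 27 * B ^ 2 ≠ 0)
    (hT : ∃ P : (Sh A B).toAffine.Point, addOrderOf P = 8) : ∃ mn, Rel8 (A, B) mn := by
  obtain ⟨P, hP⟩ := hT
  have h4 : addOrderOf ((P + P) + (P + P)) = 2 := by
    have h : (P + P) + (P + P) = 4 • P := by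
      rw [← two_nsmul, ← two_nsmul, ← mul_nsmul]
    rw [h, addOrderOf_nsmul' P four_ne_zero, hP]
    norm_num
  obtain ⟨e, he, hPP⟩ := two_tors h4
  have r1 := sh_eq.mp he.1
  obtain ⟨x, y, h, hxy, hy0, hE, hX⟩ := dbl hPP
  obtain ⟨x1, y1, -, -, hy1, hE1, hX1⟩ := dbl hxy
  have r1' : e ^ 3 + A * e + B = 0 := by linarith
  obtain ⟨s, t, E, hR, hEe, hx, hy⟩ := four_of hD hy0 hE r1' hX
  have t1 := root_sq hy1 hE1 r1' hX1
  set ρ : ℚ := (x1 ^ 2 - 2 * e * x1 - A - 2 * e ^ 2) / (2 * y1) with hρ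
  have hxt : x - e = t := by rw [hx]; ring
  rw [hxt] at t1
  obtain ⟨u, hu⟩ := int_sqrt (M := t) (m := ρ) t1
  have htu : t = u ^ 2 := by
    have : ((t : ℤ) : ℚ) = ((u ^ 2 : ℤ) : ℚ) := by
      push_cast
      rw [hu]
      exact t1
    exact_mod_cast this
  have hu0 : u ≠ 0 := by
    rintro rfl
    apply hR.ht
    rw [htu]
    norm_num
  have huq : (u : ℚ) ≠ 0 := by exact_mod_cast hu0
  -- the quadratic relation
  have hAq : (A : ℚ) = t ^ 2 - 3 * e ^ 2 := by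
    rw [← hEe]
    exact_mod_cast hR.hA
  have hBq : (B : ℚ) = 2 * e ^ 3 - t ^ 2 * e := by
    rw [← hEe]
    exact_mod_cast hR.hB
  have heq : 3 * e = (s : ℚ) ^ 2 - 2 * t := by
    rw [← hEe]
    exact_mod_cast hR.he
  have htq : (t : ℚ) = u ^ 2 := by exact_mod_cast htu
  obtain ⟨X, hXd⟩ : ∃ X : ℚ, X = x1 - e := ⟨_, rfl⟩
  have hx1 : x1 = X + e := by rw [hXd]; ring
  have q1 : 2 * (u : ℚ) * y1 = X ^ 2 - u ^ 4 := by
    have a1 : (u : ℚ) * (2 * y1) = x1 ^ 2 - 2 * e * x1 - A - 2 * e ^ 2 := by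
      rw [hu, hρ]
      field_simp
    rw [hx1, hAq, htq] at a1
    linear_combination a1
  have q2 : y1 ^ 2 = X * (X ^ 2 + (s ^ 2 - 2 * u ^ 2) * X + u ^ 4) := by
    have a1 : (s : ℚ) ^ 2 = 3 * e + 2 * u ^ 2 := by rw [heq, htq]; ring
    rw [hE1, hx1, hAq, hBq, htq, a1]
    ring
  have q3 : ((X - u ^ 2) ^ 2) ^ 2 = (2 * u * s * X) ^ 2 := by
    have a1 : (X ^ 2 - (u : ℚ) ^ 4) ^ 2 = 4 * u ^ 2 * y1 ^ 2 := by rw [← q1]; ring
    rw [q2] at a1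
    linear_combination a1
  have hfin : ∀ u' : ℤ, u' ≠ 0 → t = u' ^ 2 → (X - u' ^ 2) ^ 2 = 2 * u' * s * X →
      ∃ mn, Rel8 (A, B) mn := by
    intro u' hu' htu' hq
    have huq' : (u' : ℚ) ≠ 0 := by exact_mod_cast hu'
    have b1 : (((s * (s + 2 * u') : ℤ)) : ℚ) = ((X - u' * (u' + s)) / u') ^ 2 := by
      push_cast
      rw [div_pow, eq_div_iff (pow_ne_zero 2 huq')]
      linear_combination (-1) * hq
    obtain ⟨v, hv⟩ := int_sqrt b1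
    have b2 : s * (s + 2 * u') = v ^ 2 := by
      have : ((s * (s + 2 * u') : ℤ) : ℚ) = ((v ^ 2 : ℤ) : ℚ) := by
        rw [b1, ← hv]
        push_cast
        rfl
      exact_mod_cast this
    have hd : (s - 2 * u') * (s + 2 * u') ≠ 0 := by
      have : (s - 2 * u') * (s + 2 * u') = s ^ 2 - 4 * t := by rw [htu']; ring
      rw [this]
      exact hR.hd
    have hw : s + 2 * u' ≠ 0 := right_ne_zero_of_mul hd
    obtain ⟨k, m, n, hk, hmn, h1, h2⟩ := nt hR.hs hw b2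
    have h3 : 2 * u' = k * (n ^ 2 - m ^ 2) := by linear_combination h2 - h1
    refine ⟨(m, n), s, t, E, k, hR, hk, hmn, ?_, h1, ?_⟩
    · have f0 : m ≠ 0 := by
        rintro rfl
        exact hR.hs (by rw [h1]; ring)
      have f3 : n ≠ 0 := by
        rintro rfl
        exact hw (by rw [h2]; ring)
      have f12 : n ^ 2 - m ^ 2 ≠ 0 := by
        intro h0
        rw [h0, mul_zero] at h3
        exact hu' (by linarith)
      have f1 : n - m ≠ 0 := by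
        intro h0
        apply f12
        have : n ^ 2 - m ^ 2 = (n - m) * (n + m) := by ring
        rw [this, h0, zero_mul]
      have f2 : n + m ≠ 0 := by
        intro h0
        apply f12
        have : n ^ 2 - m ^ 2 = (n - m) * (n + m) := by ring
        rw [this, h0, mul_zero]
      have f4 : n ^ 2 - 2 * m ^ 2 ≠ 0 := by
        intro h0
        apply left_ne_zero_of_mul hd
        have : s - 2 * u' = -(k * (n ^ 2 - 2 * m ^ 2)) := by rw [h1, h3]; ring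
        rw [this, h0]
        ring
      intro j
      fin_cases j
      · exact f0
      · exact f1
      · exact f2
      · exact f3
      · exact f4
    · change 4 * t = k ^ 2 * (n ^ 2 - m ^ 2) ^ 2
      rw [htu']
      calc 4 * u' ^ 2 = (2 * u') ^ 2 := by ring
        _ = _ := by rw [h3]; ring
  rcases sq_eq_sq_iff_eq_or_eq_neg.1 q3 with h5 | h5
  · exact hfin u hu0 htu h5
  · refine hfin (-u) (neg_ne_zero.2 hu0) (by rw [htu]; ring) ?_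
    push_cast
    linear_combination h5

open Classical in
/-- the parameters -/
noncomputable def F8p (c : ℤ × ℤ) : ℤ × ℤ := if h : ∃ ab, Rel8 c ab then h.choose else (0, 0)

theorem F8p_rel {c : ℤ × ℤ} (h : ∃ ab, Rel8 c ab) : Rel8 c (F8p c) := by
  unfold F8p
  rw [dif_pos h]
  exact h.choose_spec

theorem rel8_unique {c c' mn : ℤ × ℤ} (h : Rel8 c mn) (h' : Rel8 c' mn)
    (hmin : ∀ p : ℕ, p.Prime → ¬ ((p : ℤ) ^ 4 ∣ c.1 ∧ (p : ℤ) ^ 6 ∣ c.2))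
    (hmin' : ∀ p : ℕ, p.Prime → ¬ ((p : ℤ) ^ 4 ∣ c'.1 ∧ (p : ℤ) ^ 6 ∣ c'.2)) : c = c' := by
  obtain ⟨s, t, e, k, hR, hk, -, -, h1, h2⟩ := h
  obtain ⟨s', t', e', k', hR', hk', -, -, h1', h2'⟩ := h'
  have e1 : k' ^ 2 * s ^ 2 = k ^ 2 * s' ^ 2 := by rw [h1, h1']; ring
  have e2 : k' ^ 2 * t = k ^ 2 * t' := by
    have : 4 * (k' ^ 2 * t) = 4 * (k ^ 2 * t') := by
      calc 4 * (k' ^ 2 * t) = k' ^ 2 * (4 * t) := by ring
        _ = k ^ 2 * (4 * t') := by rw [h2, h2']; ring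
        _ = _ := by ring
    linarith
  have h3 := hR.unique hR' hk hk' e1 e2 hmin hmin'
  exact Prod.ext h3.1 h3.2

theorem rel8_bound {A B : ℤ} {mn : ℤ × ℤ} (h : Rel8 (A, B) mn) {H : ℕ} (hH : 4 * |A| ^ 3 ≤ H)
    (hH' : 27 * B ^ 2 ≤ H) :
    mn.1.natAbs ^ 24 ≤ 10 ^ 11 * H ∧ mn.2.natAbs ^ 24 ≤ 10 ^ 11 * H := by
  obtain ⟨s, t, e, k, hR, hk, -, -, h1, h2⟩ := h
  obtain ⟨m, n⟩ := mn
  change s = k * m ^ 2 at h1
  change 4 * t = k ^ 2 * (n ^ 2 - m ^ 2) ^ 2 at h2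
  obtain ⟨-, ht, hs⟩ := hR.bound hH hH'
  have hk1 : 1 ≤ k ^ 2 := by
    have : 0 < k ^ 2 := by positivity
    linarith
  have hm : m ^ 24 ≤ 2000000 * H := by
    have e1 : s ^ 12 = (k ^ 2) ^ 6 * m ^ 24 := by rw [h1]; ring
    have e2 : 1 ≤ (k ^ 2) ^ 6 := one_le_pow₀ hk1
    have e3 : 0 ≤ m ^ 24 := by positivity
    nlinarith
  have hn : (n ^ 2 - m ^ 2) ^ 12 ≤ 4096 * (868 * H) := by
    have e1 : 4096 * t ^ 6 = (k ^ 2) ^ 6 * (n ^ 2 - m ^ 2) ^ 12 := by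
      have : 4096 * t ^ 6 = (4 * t) ^ 6 := by ring
      rw [this, h2]; ring
    have e2 : 1 ≤ (k ^ 2) ^ 6 := one_le_pow₀ hk1
    have e3 : 0 ≤ (n ^ 2 - m ^ 2) ^ 12 := by positivity
    nlinarith
  have sq2 : ∀ x y : ℤ, (x + y) ^ 2 ≤ 2 * (x ^ 2 + y ^ 2) := by
    intro x y
    nlinarith [sq_nonneg (x - y)]
  have cube : ∀ x y : ℤ, 0 ≤ x → 0 ≤ y → (x + y) ^ 3 ≤ 4 * (x ^ 3 + y ^ 3) := by
    intro x y hx hy
    nlinarith [mul_nonneg (add_nonneg hx hy) (sq_nonneg (x - y))]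
  have h12 : ∀ x y : ℤ, (x + y) ^ 12 ≤ 2048 * (x ^ 12 + y ^ 12) := by
    intro x y
    have a1 := sq2 x y
    have a2 : ((x + y) ^ 2) ^ 2 ≤ (2 * (x ^ 2 + y ^ 2)) ^ 2 := pow_le_pow_left₀ (sq_nonneg _) a1 2
    have a3 := sq2 (x ^ 2) (y ^ 2)
    have a4 : (x + y) ^ 4 ≤ 8 * (x ^ 4 + y ^ 4) := by
      calc (x + y) ^ 4 = ((x + y) ^ 2) ^ 2 := by ring
        _ ≤ (2 * (x ^ 2 + y ^ 2)) ^ 2 := a2
        _ = 4 * (x ^ 2 + y ^ 2) ^ 2 := by ring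
        _ ≤ 4 * (2 * ((x ^ 2) ^ 2 + (y ^ 2) ^ 2)) := by linarith
        _ = _ := by ring
    have a5 : ((x + y) ^ 4) ^ 3 ≤ (8 * (x ^ 4 + y ^ 4)) ^ 3 :=
      pow_le_pow_left₀ (by positivity) a4 3
    have a6 := cube (x ^ 4) (y ^ 4) (by positivity) (by positivity)
    calc (x + y) ^ 12 = ((x + y) ^ 4) ^ 3 := by ring
      _ ≤ (8 * (x ^ 4 + y ^ 4)) ^ 3 := a5
      _ = 512 * (x ^ 4 + y ^ 4) ^ 3 := by ring
      _ ≤ 512 * (4 * ((x ^ 4) ^ 3 + (y ^ 4) ^ 3)) := by linarith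
      _ = _ := by ring
  have hn' : n ^ 24 ≤ 10 ^ 11 * H := by
    have a1 := h12 (n ^ 2 - m ^ 2) (m ^ 2)
    have hH0 : (0 : ℤ) ≤ H := Int.natCast_nonneg H
    calc n ^ 24 = ((n ^ 2 - m ^ 2) + m ^ 2) ^ 12 := by ring
      _ ≤ 2048 * ((n ^ 2 - m ^ 2) ^ 12 + (m ^ 2) ^ 12) := a1
      _ = 2048 * (n ^ 2 - m ^ 2) ^ 12 + 2048 * m ^ 24 := by ring
      _ ≤ 2048 * (4096 * (868 * H)) + 2048 * (2000000 * H) := by linarith
      _ ≤ _ := by norm_num; linarith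
  have hm' : m ^ 24 ≤ 10 ^ 11 * H := by
    have hH0 : (0 : ℤ) ≤ H := Int.natCast_nonneg H
    refine hm.trans ?_
    norm_num
    linarith
  have key : ∀ x : ℤ, x ^ 24 ≤ 10 ^ 11 * H → x.natAbs ^ 24 ≤ 10 ^ 11 * H := by
    intro x hx
    have e2 : ((x.natAbs ^ 24 : ℕ) : ℤ) = x ^ 24 := by
      push_cast
      exact Even.pow_abs (by decide) x
    have h4 : ((x.natAbs ^ 24 : ℕ) : ℤ) ≤ ((10 ^ 11 * H : ℕ) : ℤ) := by
      rw [e2]
      push_cast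
      exact hx
    exact_mod_cast h4
  exact ⟨key m hm', key n hn'⟩

/-- the ranks -/
theorem rel8_rank {A B : ℤ} {mn : ℤ × ℤ} (h : Rel8 (A, B) mn) :
    Module.finrank ℤ (Sh A B).toAffine.Point ≤
      Module.finrank ℤ (EAB (-mn.1 ^ 4) (-(mn.2 ^ 2 - mn.1 ^ 2) ^ 2)).toAffine.Point := by
  obtain ⟨s, t, e, k, hR, hk, -, -, h1, h2⟩ := h
  obtain ⟨m, n⟩ := mn
  change s = k * m ^ 2 at h1
  change 4 * t = k ^ 2 * (n ^ 2 - m ^ 2) ^ 2 at h2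
  change Module.finrank ℤ (Sh A B).toAffine.Point ≤
      Module.finrank ℤ (EAB (-m ^ 4) (-(n ^ 2 - m ^ 2) ^ 2)).toAffine.Point
  refine hR.rk.trans (le_of_eq ?_)
  have hkq : (k : ℚ) ≠ 0 := by exact_mod_cast hk
  have hsq : (s : ℚ) = k * m ^ 2 := by exact_mod_cast h1
  have htq : 4 * (t : ℚ) = k ^ 2 * (n ^ 2 - m ^ 2) ^ 2 := by exact_mod_cast h2
  have htq' : (t : ℚ) = k ^ 2 * (n ^ 2 - m ^ 2) ^ 2 / 4 := by linarith
  obtain ⟨φ⟩ := Pool.Agent.W261.RT.iso (-((s : ℚ) ^ 2 + (s ^ 2 - 4 * t)))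
    ((s : ℚ) ^ 2 * (s ^ 2 - 4 * t)) 0 ((s : ℚ) ^ 2) k hkq
  have hW : (⟨0, (-((s : ℚ) ^ 2 + (s ^ 2 - 4 * t)) + 3 * (s : ℚ) ^ 2) / (k : ℚ) ^ 2, 0,
      ((s : ℚ) ^ 2 * (s ^ 2 - 4 * t) + 2 * (s : ℚ) ^ 2 * (-((s : ℚ) ^ 2 + (s ^ 2 - 4 * t))) +
        3 * ((s : ℚ) ^ 2) ^ 2) / (k : ℚ) ^ 4,
      (0 + (s : ℚ) ^ 2 * ((s : ℚ) ^ 2 * (s ^ 2 - 4 * t)) +
        ((s : ℚ) ^ 2) ^ 2 * (-((s : ℚ) ^ 2 + (s ^ 2 - 4 * t))) + ((s : ℚ) ^ 2) ^ 3) / (k : ℚ) ^ 6⟩ :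
        WeierstrassCurve ℚ) = EAB (-m ^ 4) (-(n ^ 2 - m ^ 2) ^ 2) := by
    unfold EAB
    simp only [WeierstrassCurve.mk.injEq, true_and]
    refine ⟨?_, ?_, ?_⟩
    · rw [htq', hsq]; push_cast; field_simp; ring
    · rw [htq', hsq]; push_cast; field_simp; ring
    · rw [htq', hsq]; field_simp; ring
  rw [hW] at φ
  have hW0 : EAB (s ^ 2) (s ^ 2 - 4 * t) = (⟨0, -((s : ℚ) ^ 2 + (s ^ 2 - 4 * t)), 0,
      (s : ℚ) ^ 2 * (s ^ 2 - 4 * t), 0⟩ : WeierstrassCurve ℚ) := by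
    unfold EAB
    push_cast
    rfl
  rw [hW0]
  exact LinearEquiv.finrank_eq φ.toIntLinearEquiv

end Pool.Agent.R421.Z8
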